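import Mathlib

/-!
# H12.TP.Halve: halving and pairing

Sums over a finite set on which some subsets have equal size (MP_737bdd_co, core scheme).
-/

set_option autoImplicit false

namespace Pool.Agent.H12.TP

open Finset
open scoped Classical

variable {α : Type} [Fintype α]

/-- two sets `B`, `B'` of the same size; `h` is nonnegative on the points on which they agree, and the
sum of a value on `B \ B'` and a value on `B' \ B` is nonnegative -/
theorem pair_sum (B B' : Finset α) (h : α → ℝ) (hc : B.card = B'.card)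
    (h0 : ∀ a, (a ∈ B ↔ a ∈ B') → 0 ≤ h a)
    (h1 : ∀ a b, a ∈ B → a ∉ B' → b ∉ B → b ∈ B' → 0 ≤ h a + h b) : 0 ≤ ∑ a, h a := by
  have hcard : (B \ B').card = (B' \ B).card := by
    have e1 := card_sdiff_add_card_inter B B'
    have e2 := card_sdiff_add_card_inter B' B
    rw [inter_comm B' B] at e2
    omega
  obtain ⟨e⟩ : Nonempty ((B \ B' : Finset α) ≃ (B' \ B : Finset α)) :=
    ⟨Finset.equivOfCardEq hcard⟩
  have hs : ∑ a, h a = ∑ a ∈ univ.filter (fun a => (a ∈ B ↔ a ∈ B')), h a +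
      (∑ a ∈ B \ B', h a + ∑ a ∈ B' \ B, h a) := by
    rw [← sum_filter_add_sum_filter_not univ (fun a => (a ∈ B ↔ a ∈ B'))]
    congr 1
    rw [← sum_union]
    · refine sum_congr ?_ fun _ _ => rfl
      ext a
      simp only [mem_filter, mem_univ, true_and, mem_union, mem_sdiff]
      tauto
    · rw [disjoint_left]
      intro a ha hb
      rw [mem_sdiff] at ha hb
      exact hb.2 ha.1
  have h2 : ∑ a ∈ B' \ B, h a = ∑ a : (B \ B' : Finset α), h (e a) := by
    rw [← sum_coe_sort (B' \ B) h]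
    exact (Equiv.sum_comp e fun x : (B' \ B : Finset α) => h x).symm
  have h3 : 0 ≤ ∑ a ∈ B \ B', h a + ∑ a ∈ B' \ B, h a := by
    rw [h2, ← sum_coe_sort (B \ B') h, ← sum_add_distrib]
    refine sum_nonneg fun a _ => ?_
    have ha := mem_sdiff.1 a.2
    have hb := mem_sdiff.1 (e a).2
    exact h1 a (e a) ha.1 ha.2 hb.2 hb.1
  have h4 : 0 ≤ ∑ a ∈ univ.filter (fun a => (a ∈ B ↔ a ∈ B')), h a := by
    refine sum_nonneg fun a ha => ?_
    rw [mem_filter] at ha
    exact h0 a ha.2
  rw [hs]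
  linarith

/-- the sum of the signs of a halving set is zero -/
theorem sum_sign (B : Finset α) (hB : 2 * B.card = Fintype.card α) :
    ∑ a, (if a ∈ B then (1 : ℝ) else -1) = 0 := by
  have h1 : ∀ a : α, (if a ∈ B then (1 : ℝ) else -1) = 2 * (if a ∈ B then (1 : ℝ) else 0) - 1 := by
    intro a
    split_ifs <;> norm_num
  rw [sum_congr rfl fun a _ => h1 a, sum_sub_distrib, ← mul_sum, sum_ite_mem, univ_inter]
  simp only [sum_const, card_univ, nsmul_eq_mul, mul_one]
  have : (2 : ℝ) * B.card = Fintype.card α := by exact_mod_cast hB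
  linarith

/-- the certificate form -/
theorem cert_sum {ι : Type} (s : Finset ι) (B : ι → Finset α)
    (hB : ∀ j ∈ s, 2 * (B j).card = Fintype.card α) (h : α → ℝ) (y : ι → ℝ)
    (hy : ∀ a, 0 ≤ h a + ∑ j ∈ s, y j * (if a ∈ B j then (1 : ℝ) else -1)) : 0 ≤ ∑ a, h a := by
  have h1 : ∑ a, ∑ j ∈ s, y j * (if a ∈ B j then (1 : ℝ) else -1) = 0 := by
    rw [sum_comm]
    refine sum_eq_zero fun j hj => ?_
    rw [← mul_sum, sum_sign (B j) (hB j hj), mul_zero]
  have h2 : 0 ≤ ∑ a, (h a + ∑ j ∈ s, y j * (if a ∈ B j then (1 : ℝ) else -1)) :=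
    sum_nonneg fun a _ => hy a
  rw [sum_add_distrib, h1, add_zero] at h2
  exact h2

end Pool.Agent.H12.TP
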