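import Mathlib

/-!
# H12.TP.Round: rounding

The points of a finite set get labels in `{0, .., M - 1}` such that in every class of a given
partition every function with few jumps has nearly the right average (MP_737bdd_co, core scheme).
-/

set_option autoImplicit false

namespace Pool.Agent.H12.TP

open Finset
open scoped Classical

/-- equidistributed labels on a finite set -/
theorem exists_lab {α : Type} (A : Finset α) (M : ℕ) (hM : 0 < M) :
    ∃ ι : α → ℕ, (∀ a, ι a < M) ∧ ∀ t ≤ M,
      |((A.filter fun a => t ≤ ι a).card : ℝ) - A.card * (M - t) / M| ≤ 1 := by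
  set n := A.card with hn
  let e : A ≃ Fin n := A.equivFin
  refine ⟨fun a => if h : a ∈ A then (e ⟨a, h⟩ : ℕ) * M / n else 0, ?_, ?_⟩
  · intro a
    by_cases h : a ∈ A
    · simp only [h, dif_pos]
      have h1 := (e ⟨a, h⟩).2
      have hn0 : 0 < n := by omega
      rw [Nat.div_lt_iff_lt_mul hn0, mul_comm M n]
      exact Nat.mul_lt_mul_of_pos_right h1 hM
    · simp only [h, dif_neg, not_false_eq_true]
      exact hM
  · intro t ht
    have h1 : (A.filter fun a => t ≤ if h : a ∈ A then (e ⟨a, h⟩ : ℕ) * M / n else 0).card =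
        ((range n).filter fun l => t * n ≤ l * M).card := by
      refine card_bij (fun a ha => ((e ⟨a, (mem_filter.1 ha).1⟩ : Fin n) : ℕ)) ?_ ?_ ?_
      · intro a ha
        have ha' := mem_filter.1 ha
        have h2 := (e ⟨a, ha'.1⟩).2
        have hn0 : 0 < n := by omega
        rw [mem_filter, mem_range]
        refine ⟨h2, ?_⟩
        have h3 := ha'.2
        rw [dif_pos ha'.1, Nat.le_div_iff_mul_le hn0] at h3
        exact h3
      · intro a ha b hb hab
        have h2 := e.injective (Fin.ext hab)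
        exact congrArg Subtype.val h2
      · intro l hl
        rw [mem_filter, mem_range] at hl
        have hn0 : 0 < n := by omega
        refine ⟨(e.symm ⟨l, hl.1⟩ : A), ?_, ?_⟩
        · rw [mem_filter]
          refine ⟨(e.symm ⟨l, hl.1⟩).2, ?_⟩
          rw [dif_pos (e.symm ⟨l, hl.1⟩).2, Nat.le_div_iff_mul_le hn0]
          simpa using hl.2
        · simp
    rw [h1]
    -- the numbers `l < n` with `t n <= l M`
    have hM' : (0 : ℝ) < M := by exact_mod_cast hM
    obtain ⟨q, hq⟩ : ∃ q, q = (t * n + (M - 1)) / M := ⟨_, rfl⟩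
    have hq1 : ∀ l, t * n ≤ l * M ↔ q ≤ l := by
      intro l
      constructor
      · intro h
        rw [hq]
        apply Nat.le_of_lt_succ
        rw [Nat.div_lt_iff_lt_mul hM, Nat.succ_mul]
        omega
      · intro h
        have h6 := Nat.lt_mul_div_succ (t * n + (M - 1)) hM
        rw [← hq] at h6
        have h7 : M * (q + 1) ≤ M * (l + 1) := Nat.mul_le_mul_left M (Nat.succ_le_succ h)
        have h8 : M * (l + 1) = l * M + M := by ring
        omega
    have hqn : q ≤ n := by
      rw [← hq1, mul_comm t n]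
      exact Nat.mul_le_mul_left n ht
    have h2 : ((range n).filter fun l => t * n ≤ l * M) = Ico q n := by
      ext l
      rw [mem_filter, mem_range, mem_Ico, hq1]
      exact and_comm
    rw [h2, Nat.card_Ico, Nat.cast_sub hqn]
    have h3 : q * M ≤ t * n + (M - 1) := by
      rw [hq]
      exact Nat.div_mul_le_self _ _
    have h4 : t * n ≤ q * M := (hq1 q).2 le_rfl
    have h3' : (q : ℝ) * M ≤ t * n + M := by
      have : q * M ≤ t * n + M := by omega
      exact_mod_cast this
    have h4' : (t : ℝ) * n ≤ q * M := by exact_mod_cast h4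
    have h5 : ((n : ℝ) - q) - n * (M - t) / M = (t * n - q * M) / M := by
      field_simp
      ring
    rw [h5, abs_le]
    constructor
    · rw [le_div_iff₀ hM']
      linarith
    · rw [div_le_iff₀ hM']
      linarith

/-- summation by parts -/
theorem abel (f : ℕ → ℝ) {M i : ℕ} (hi : i < M) :
    f i = f 0 + ∑ t ∈ range M, if t ≤ i then (if t = 0 then 0 else f t - f (t - 1)) else 0 := by
  have h1 : ∀ i, f i = f 0 + ∑ t ∈ range (i + 1), if t = 0 then 0 else f t - f (t - 1) := by
    intro i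
    induction i with
    | zero => simp
    | succ i ih =>
      rw [sum_range_succ, ← add_assoc, ← ih, if_neg (Nat.succ_ne_zero i), Nat.add_sub_cancel]
      ring
  rw [h1 i, ← sum_filter]
  congr 1
  refine sum_congr ?_ fun _ _ => rfl
  ext t
  simp only [mem_range, mem_filter]
  omega

/-- one class -/
theorem round_one {α : Type} (A : Finset α) {M : ℕ} (hM : 0 < M) {ι : α → ℕ} (h0 : ∀ a, ι a < M)
    (h1 : ∀ t ≤ M, |((A.filter fun a => t ≤ ι a).card : ℝ) - A.card * (M - t) / M| ≤ 1)
    (f : ℕ → ℝ) (b : ℝ) (T : ℕ) (hb : ∀ i < M, |f i| ≤ b)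
    (hT : ((range M).filter fun t => t ≠ 0 ∧ f t ≠ f (t - 1)).card ≤ T) :
    |∑ a ∈ A, f (ι a) - (1 / M) * ∑ i ∈ range M, A.card * f i| ≤ 2 * b * T := by
  have hM' : (0 : ℝ) < M := by exact_mod_cast hM
  have hb0 : 0 ≤ b := (abs_nonneg _).trans (hb 0 hM)
  set D : ℕ → ℝ := fun t => if t = 0 then 0 else f t - f (t - 1) with hD
  have e1 : ∑ a ∈ A, f (ι a) = A.card * f 0 +
      ∑ t ∈ range M, ((A.filter fun a => t ≤ ι a).card : ℝ) * D t := by
    rw [sum_congr rfl fun a _ => abel f (h0 a), sum_add_distrib, sum_const, nsmul_eq_mul, sum_comm]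
    congr 1
    refine sum_congr rfl fun t _ => ?_
    rw [← sum_filter, sum_const, nsmul_eq_mul]
  have e2 : ∑ i ∈ range M, f i = M * f 0 + ∑ t ∈ range M, ((M : ℝ) - t) * D t := by
    rw [sum_congr rfl fun i hi => abel f (mem_range.1 hi), sum_add_distrib, sum_const, card_range,
      nsmul_eq_mul, sum_comm]
    congr 1
    refine sum_congr rfl fun t ht => ?_
    rw [← sum_filter, sum_const, nsmul_eq_mul]
    congr 1
    have h2 : ((range M).filter fun i => t ≤ i) = Ico t M := by
      ext l
      rw [mem_filter, mem_range, mem_Ico]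
      exact and_comm
    rw [h2, Nat.card_Ico, Nat.cast_sub (mem_range.1 ht).le]
  have e3 : (1 / (M : ℝ)) * ∑ i ∈ range M, A.card * f i =
      A.card * f 0 + ∑ t ∈ range M, (A.card * ((M : ℝ) - t) / M) * D t := by
    rw [← mul_sum, e2, mul_add, mul_add, mul_sum, mul_sum]
    congr 1
    · field_simp
    · refine sum_congr rfl fun t _ => ?_
      field_simp
  rw [e1, e3, add_sub_add_left_eq_sub, ← sum_sub_distrib]
  have e4 : ∀ t ∈ range M, ((A.filter fun a => t ≤ ι a).card : ℝ) * D t -
      (A.card * ((M : ℝ) - t) / M) * D t = if t ≠ 0 ∧ f t ≠ f (t - 1) then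
        (((A.filter fun a => t ≤ ι a).card : ℝ) - A.card * ((M : ℝ) - t) / M) * D t else 0 := by
    intro t _
    rw [← sub_mul]
    split_ifs with h
    · rfl
    · have h2 : D t = 0 := by
        rw [hD]
        by_cases ht : t = 0
        · simp [ht]
        · simp only [ht, if_false]
          by_contra hc
          exact h ⟨ht, fun h3 => hc (by rw [h3, sub_self])⟩
      rw [h2, mul_zero]
  rw [sum_congr rfl e4, ← sum_filter]
  refine (abs_sum_le_sum_abs _ _).trans ?_
  have e5 : ∀ t ∈ (range M).filter fun t => t ≠ 0 ∧ f t ≠ f (t - 1),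
      |(((A.filter fun a => t ≤ ι a).card : ℝ) - A.card * ((M : ℝ) - t) / M) * D t| ≤ 2 * b := by
    intro t ht
    rw [mem_filter, mem_range] at ht
    rw [abs_mul]
    have h2 := h1 t ht.1.le
    have h3 : |D t| ≤ 2 * b := by
      rw [hD]
      simp only [ht.2.1, if_false]
      have h4 := hb t ht.1
      have h5 := hb (t - 1) (by omega)
      have h6 := abs_sub (f t) (f (t - 1))
      linarith
    calc _ ≤ 1 * (2 * b) := mul_le_mul h2 h3 (abs_nonneg _) zero_le_one
      _ = 2 * b := one_mul _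
  refine (sum_le_sum e5).trans ?_
  rw [sum_const, nsmul_eq_mul, mul_comm]
  have h7 : (((range M).filter fun t => t ≠ 0 ∧ f t ≠ f (t - 1)).card : ℝ) ≤ T := by
    exact_mod_cast hT
  exact mul_le_mul_of_nonneg_left h7 (by linarith)

/-- rounding -/
theorem rounding {α β : Type} [Fintype α] [Fintype β] (M : ℕ) (hM : 0 < M) (κ : α → β) :
    ∃ ι : α → ℕ, (∀ a, ι a < M) ∧ ∀ (f : β → ℕ → ℝ) (b : ℝ) (T : ℕ),
      (∀ w, ∀ i < M, |f w i| ≤ b) →
      (∀ w, ((range M).filter fun t => t ≠ 0 ∧ f w t ≠ f w (t - 1)).card ≤ T) →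
      |∑ a, f (κ a) (ι a) - (1 / M) * ∑ i ∈ range M, ∑ a, f (κ a) i| ≤
        2 * b * T * Fintype.card β := by
  choose ι h0 h1 using fun w : β => exists_lab (univ.filter fun a : α => κ a = w) M hM
  refine ⟨fun a => ι (κ a) a, fun a => h0 _ a, fun f b T hb hT => ?_⟩
  have e1 : ∑ a, f (κ a) (ι (κ a) a) =
      ∑ w, ∑ a ∈ univ.filter (fun a : α => κ a = w), f w (ι w a) := by
    rw [← sum_fiberwise univ κ]
    refine sum_congr rfl fun w _ => sum_congr rfl fun a ha => ?_
    rw [(mem_filter.1 ha).2]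
  have e2 : ∀ i, ∑ a, f (κ a) i = ∑ w, ((univ.filter fun a : α => κ a = w).card : ℝ) * f w i := by
    intro i
    rw [← sum_fiberwise univ κ]
    refine sum_congr rfl fun w _ => ?_
    rw [sum_congr rfl fun a ha => by rw [(mem_filter.1 ha).2], sum_const, nsmul_eq_mul]
  rw [e1, sum_congr rfl fun i _ => e2 i, sum_comm, mul_sum, ← sum_sub_distrib]
  refine (abs_sum_le_sum_abs _ _).trans ?_
  refine (sum_le_sum fun w _ => round_one _ hM (h0 w) (h1 w) (f w) b T (hb w) (hT w)).trans ?_
  rw [sum_const, nsmul_eq_mul, card_univ, mul_comm]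

/-- rounding with classes which move, except for the points of a small set -/
theorem rounding' {α β : Type} [Fintype α] [Fintype β] (M : ℕ) (hM : 0 < M) (κ : ℕ → α → β)
    (E : Finset α) (hE : ∀ a, a ∉ E → ∀ i < M, κ i a = κ 0 a) :
    ∃ ι : α → ℕ, (∀ a, ι a < M) ∧ ∀ (f : β → ℕ → ℝ) (g : α → ℝ) (b : ℝ) (T : ℕ), 0 ≤ b →
      (∀ w, ∀ i < M, |f w i| ≤ b) → (∀ a, |g a| ≤ b) →
      (∀ w, ((range M).filter fun t => t ≠ 0 ∧ f w t ≠ f w (t - 1)).card ≤ T) →
      |∑ a, (if a ∈ E then g a else f (κ 0 a) (ι a)) -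
          (1 / M) * ∑ i ∈ range M, ∑ a, f (κ i a) i| ≤
        2 * b * T * Fintype.card β + 4 * b * E.card := by
  obtain ⟨ι, h0, h1⟩ := rounding M hM (κ 0)
  refine ⟨ι, h0, fun f g b T hb0 hb hg hT => ?_⟩
  have hM' : (0 : ℝ) < M := by exact_mod_cast hM
  have h2 := h1 f b T hb hT
  have e1 : |∑ a, (if a ∈ E then g a else f (κ 0 a) (ι a)) - ∑ a, f (κ 0 a) (ι a)| ≤
      2 * b * E.card := by
    rw [← sum_sub_distrib]
    refine (abs_sum_le_sum_abs _ _).trans ?_
    have h3 : ∀ a ∈ (univ : Finset α), |(if a ∈ E then g a else f (κ 0 a) (ι a)) -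
        f (κ 0 a) (ι a)| ≤ if a ∈ E then 2 * b else 0 := by
      intro a _
      split_ifs with h
      · have h4 := abs_sub (g a) (f (κ 0 a) (ι a))
        have h5 := hb (κ 0 a) (ι a) (h0 a)
        have h6 := hg a
        linarith
      · rw [sub_self, abs_zero]
    refine (sum_le_sum h3).trans ?_
    rw [sum_ite_mem, univ_inter, sum_const, nsmul_eq_mul, mul_comm]
  have e2 : |(1 / (M : ℝ)) * ∑ i ∈ range M, ∑ a, f (κ 0 a) i -
      (1 / M) * ∑ i ∈ range M, ∑ a, f (κ i a) i| ≤ 2 * b * E.card := by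
    rw [← mul_sub, abs_mul, ← sum_sub_distrib, abs_of_pos (by positivity : (0 : ℝ) < 1 / M)]
    have h3 : |∑ i ∈ range M, (∑ a, f (κ 0 a) i - ∑ a, f (κ i a) i)| ≤
        M * (2 * b * E.card) := by
      refine (abs_sum_le_sum_abs _ _).trans ?_
      have h4 : ∀ i ∈ range M, |∑ a, f (κ 0 a) i - ∑ a, f (κ i a) i| ≤ 2 * b * E.card := by
        intro i hi
        rw [← sum_sub_distrib]
        refine (abs_sum_le_sum_abs _ _).trans ?_
        have h5 : ∀ a ∈ (univ : Finset α), |f (κ 0 a) i - f (κ i a) i| ≤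
            if a ∈ E then 2 * b else 0 := by
          intro a _
          split_ifs with h
          · have h6 := abs_sub (f (κ 0 a) i) (f (κ i a) i)
            have h7 := hb (κ 0 a) i (mem_range.1 hi)
            have h8 := hb (κ i a) i (mem_range.1 hi)
            linarith
          · rw [hE a h i (mem_range.1 hi), sub_self, abs_zero]
        refine (sum_le_sum h5).trans ?_
        rw [sum_ite_mem, univ_inter, sum_const, nsmul_eq_mul, mul_comm]
      refine (sum_le_sum h4).trans ?_
      rw [sum_const, nsmul_eq_mul, card_range]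
    calc 1 / (M : ℝ) * |∑ i ∈ range M, (∑ a, f (κ 0 a) i - ∑ a, f (κ i a) i)|
        ≤ 1 / (M : ℝ) * (M * (2 * b * E.card)) := mul_le_mul_of_nonneg_left h3 (by positivity)
      _ = 2 * b * E.card := by field_simp
  have t1 := abs_le.1 h2
  have t2 := abs_le.1 e1
  have t3 := abs_le.1 e2
  rw [abs_le]
  constructor <;> linarith [t1.1, t1.2, t2.1, t2.2, t3.1, t3.2]

end Pool.Agent.H12.TP
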